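import Mathlib

namespace Pool.Agent.Results.MP_96ce97_co.Counter

/-- The set `(E - E) * (E - E)` of products of two differences. -/
def prodDiff {R : Type} [CommRing R] (E : Set R) : Set R :=
  {z | ∃ x ∈ E, ∃ y ∈ E, ∃ u ∈ E, ∃ v ∈ E, z = (x - y) * (u - v)}

theorem result :
    ∃ α : ℝ, 0 < α ∧ ∀ N k : ℕ, ∃ (R : Type) (_ : CommRing R) (_ : Finite R) (E : Set R),
      N ≤ Nat.card R ∧ α * (Nat.card R : ℝ) ≤ (E.ncard : ℝ) ∧
      ∀ R₀ : NonUnitalSubring R, (R₀ : Set R) ⊆ prodDiff E →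
        (k : ℝ) < (Nat.card R : ℝ) / (Nat.card R₀ : ℝ) := by
  refine ⟨1 / 2, by norm_num, fun N k => ?_⟩
  let n := N + k
  let M := Fin n → ZMod 2
  have : Finite (TrivSqZeroExt (ZMod 2) M) := inferInstanceAs (Finite (ZMod 2 × M))
  have hM : Nat.card M = 2 ^ n := by simp [M]
  have hR : Nat.card (TrivSqZeroExt (ZMod 2) M) = 2 * 2 ^ n := by
    change Nat.card (ZMod 2 × M) = _
    rw [Nat.card_prod, hM]; simp
  have hlt : n < 2 ^ n := Nat.lt_two_pow_self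
  refine ⟨TrivSqZeroExt (ZMod 2) M, inferInstance, inferInstance,
    Set.range (TrivSqZeroExt.inr : M → TrivSqZeroExt (ZMod 2) M), ?_, ?_, ?_⟩
  · rw [hR]; omega
  · rw [hR, Set.ncard_range_of_injective TrivSqZeroExt.inr_injective, hM]
    push_cast
    linarith
  · intro R₀ h
    have h0 : ∀ z ∈ R₀, z = 0 := by
      intro z hz
      obtain ⟨_, ⟨x, rfl⟩, _, ⟨y, rfl⟩, _, ⟨u, rfl⟩, _, ⟨v, rfl⟩, rfl⟩ := h hz
      rw [← TrivSqZeroExt.inr_sub, ← TrivSqZeroExt.inr_sub, TrivSqZeroExt.inr_mul_inr]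
    have : Unique R₀ := ⟨⟨0⟩, fun a => Subtype.ext (h0 a.1 a.2)⟩
    rw [Nat.card_unique (α := R₀), hR]
    have : k < 2 * 2 ^ n := by omega
    push_cast
    rw [div_one]
    exact_mod_cast this

end Pool.Agent.Results.MP_96ce97_co.Counter
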